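import Pool.Agent.TH262.SawL.Xi

/-! # The end point law of the planar self-avoiding walk from its correlation length -/

set_option autoImplicit false

namespace Pool.Agent.TH546.XI

open Pool.Agent.TH795.EP Pool.Agent.TH262.SawE Pool.Agent.TH262.SawL H981 Finset Filter Topology

theorem Z_ge (h : ℝ × ℝ) (n : ℕ) : Z (h.1, 0) n ≤ Z h n := by
  have h1 := Z_ng h n
  have h2 : Z h n + Z h n = ∑ w ∈ fs Saw n, (Real.exp (h.1 * dx w + h.2 * dy w) +
      Real.exp (h.1 * dx w + -h.2 * dy w)) := by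
    conv_lhs => rhs; rw [← h1]
    unfold Z
    rw [← Finset.sum_add_distrib]
  have h3 : Z (h.1, 0) n + Z (h.1, 0) n ≤ Z h n + Z h n := by
    rw [h2]
    unfold Z
    rw [← Finset.sum_add_distrib]
    apply Finset.sum_le_sum
    intro w _
    simp only [zero_mul, add_zero]
    have e1 : Real.exp (h.1 * dx w + h.2 * dy w) = Real.exp (h.1 * dx w) * Real.exp (h.2 * dy w) :=
      Real.exp_add _ _
    have e2 : Real.exp (h.1 * dx w + -h.2 * dy w) =
        Real.exp (h.1 * dx w) * Real.exp (-(h.2 * dy w)) := by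
      rw [← Real.exp_add]; congr 1; ring
    rw [e1, e2]
    have h4 := Real.exp_pos (h.1 * dx w)
    have h5 : 2 ≤ Real.exp (h.2 * dy w) + Real.exp (-(h.2 * dy w)) := by
      have h6 := Real.one_le_cosh (h.2 * dy w)
      rw [Real.cosh_eq] at h6
      linarith
    nlinarith
  linarith

theorem Lam_ge (h : ℝ × ℝ) : psi |h.1| ≤ Lam h := by
  have h0 : psi |h.1| = Lam (h.1, 0) := by
    unfold psi
    rcases abs_cases h.1 with ⟨h1, _⟩ | ⟨h1, _⟩
    · rw [h1]
    · rw [h1]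
      exact Lam_sg (h.1, 0)
  rw [h0]
  have h1 := Lam_tendsto (h.1, 0)
  have h2 := Lam_tendsto h
  have h3 := le_of_tendsto_of_tendsto' h1 h2 (fun n => by
    apply div_le_div_of_nonneg_right _ (Nat.cast_nonneg _)
    exact Real.log_le_log (Z_pos _ _) (Z_ge h n))
  linarith

/-- the rate function is the Legendre transform of the free energy, in terms of the mass -/
theorem le_R {v e : ℝ} (hv0 : 0 ≤ v) (hv1 : v ≤ 1) (he : 0 < e) :
    v * TH262.SawL.mass e - e ≤ R v := by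
  by_contra hcon
  push Not at hcon
  have hm := TH262.SawL.mass_pos he
  have hR := R_nonneg hv0 hv1
  have hv : 0 < v := by
    by_contra h0
    have : v = 0 := le_antisymm (not_lt.1 h0) hv0
    rw [this, zero_mul] at hcon
    rw [this] at hR
    linarith
  have h1 : (R v + e) / v < TH262.SawL.mass e := by
    rw [div_lt_iff₀ hv]
    linarith
  obtain ⟨h, h2, h3⟩ := exists_between h1
  have h0 : 0 ≤ h := le_trans (by positivity) h2.le
  have h4 := psi_le_of_lt he.le h0 h3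
  have h5 := young hv0 hv1 h
  rw [div_lt_iff₀ hv] at h2
  linarith

theorem R_le_exists {v d : ℝ} (hv0 : 0 ≤ v) (hd : 0 < d) :
    ∃ e : ℝ, 0 < e ∧ R v - d ≤ v * TH262.SawL.mass e - e := by
  have h1 : R v - d / 2 < ⨆ h : ℝ × ℝ, (h.1 * v + h.2 * 0 - Lam h) := by
    have : (⨆ h : ℝ × ℝ, (h.1 * v + h.2 * 0 - Lam h)) = R v := rfl
    rw [this]
    linarith
  obtain ⟨h, h2⟩ := exists_lt_of_lt_ciSup h1
  have h3 := Lam_ge h
  have h4 := psi_nonneg |h.1|
  refine ⟨psi |h.1| + d / 2, by linarith, ?_⟩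
  have h5 := TH262.SawL.le_mass (e := psi |h.1| + d / 2) (abs_nonneg h.1) (by linarith)
  have h6 : h.1 * v ≤ v * |h.1| := by
    rw [mul_comm]
    exact mul_le_mul_of_nonneg_left (le_abs_self _) hv0
  have h7 := mul_le_mul_of_nonneg_left h5 hv0
  linarith

/-- **The end point law on the axis.** -/
theorem legendre : ∃ K : ℝ, 0 ≤ K ∧ ∀ n k : ℕ, 2 ≤ n → 1 ≤ k → k ≤ n → ((k : ℤ) - n) % 2 = 0 →
    (∀ e : ℝ, 0 < e → Real.log ((a n k 0 : ℝ) / c n) + (k * TH262.SawL.mass e - n * e) ≤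
      K * Real.log n ^ 4) ∧
    (∃ e : ℝ, 0 < e ∧ -(K * Real.log n ^ 4) ≤
      Real.log ((a n k 0 : ℝ) / c n) + (k * TH262.SawL.mass e - n * e)) := by
  obtain ⟨K, hK, hldp⟩ := ldp_words
  refine ⟨K + 1, by positivity, fun n k hn hk hkn hpar => ?_⟩
  have hn0 : (0 : ℝ) < n := by exact_mod_cast (by omega : 0 < n)
  have hne : ((k : ℤ), (0 : ℤ)) ≠ (0, 0) := by simp; omega
  have hle : |(k : ℤ)| + |(0 : ℤ)| ≤ n := by simp; exact hkn
  have hp : ((k : ℤ) + 0 - n) % 2 = 0 := by rw [add_zero]; exact hpar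
  have h1 := abs_le.1 (hldp n hn k 0 hne hp hle)
  simp only [Int.cast_natCast, Int.cast_zero, zero_div] at h1
  have hR2 : Rate ((k : ℝ) / n, 0) = R ((k : ℝ) / n) := rfl
  rw [hR2] at h1
  have hv0 : (0 : ℝ) ≤ (k : ℝ) / n := by positivity
  have hv1 : (k : ℝ) / n ≤ 1 := by
    rw [div_le_one hn0]
    exact_mod_cast hkn
  have hlog := log_pos' hn
  have hL4 : 0 < Real.log (n : ℝ) ^ 4 := by positivity
  constructor
  · intro e he
    have h2 := mul_le_mul_of_nonneg_left (le_R hv0 hv1 he) hn0.le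
    have e1 : (n : ℝ) * ((k : ℝ) / n * TH262.SawL.mass e - e) =
        k * TH262.SawL.mass e - n * e := by
      field_simp
    rw [e1] at h2
    linarith [h1.2]
  · obtain ⟨e, he, h2⟩ := R_le_exists (v := (k : ℝ) / n) (d := Real.log (n : ℝ) ^ 4 / n) hv0
      (by positivity)
    refine ⟨e, he, ?_⟩
    have h3 := mul_le_mul_of_nonneg_left h2 hn0.le
    have e1 : (n : ℝ) * ((k : ℝ) / n * TH262.SawL.mass e - e) =
        k * TH262.SawL.mass e - n * e := by
      field_simp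
    have e2 : (n : ℝ) * (R ((k : ℝ) / n) - Real.log (n : ℝ) ^ 4 / n) =
        n * R ((k : ℝ) / n) - Real.log (n : ℝ) ^ 4 := by
      field_simp
    rw [e1, e2] at h3
    linarith [h1.1]

/-- the mass at `1 / n` and the tail of the end point: upper bound -/
theorem far_upper : ∃ K : ℝ, 0 ≤ K ∧ ∀ n : ℕ, 2 ≤ n → ∀ r : ℝ, 0 ≤ r →
    far n r ≤ Real.exp (K * Real.log n ^ 4 - r * TH262.SawL.mass (1 / n) / 4) := by
  obtain ⟨K, hK, hfar⟩ := far_le
  refine ⟨K + 15, by positivity, fun n hn r hr => ?_⟩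
  have hn0 : (0 : ℝ) < n := by exact_mod_cast (by omega : 0 < n)
  have hm : 0 < TH262.SawL.mass (1 / (n : ℝ)) := TH262.SawL.mass_pos (by positivity)
  obtain ⟨h, hh⟩ : ∃ h, h = TH262.SawL.mass (1 / (n : ℝ)) / 2 := ⟨_, rfl⟩
  have h0 : 0 ≤ h := by rw [hh]; linarith
  have h1 : psi h ≤ 1 / n := psi_le_of_lt (by positivity) h0 (by rw [hh]; linarith)
  refine (hfar n hn r h h0).trans (Real.exp_le_exp.2 ?_)
  have h2 : (n : ℝ) * psi h ≤ 1 := by
    rw [le_div_iff₀ hn0] at h1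
    linarith
  have hlog := log_pos' hn
  have h3 := (pow_le_four hn)
  have h4 : (3 : ℝ) ≤ 15 * Real.log n ^ 4 := by
    have h5 : Real.log 2 ≤ Real.log n := log_ge hn
    have h6 := Real.log_two_gt_d9
    have h7 : (0.69 : ℝ) ^ 4 ≤ Real.log n ^ 4 := pow_le_pow_left₀ (by norm_num) (by linarith) 4
    norm_num at h7
    linarith
  have h5 : h * r / 2 = r * TH262.SawL.mass (1 / (n : ℝ)) / 4 := by rw [hh]; ring
  linarith

theorem far_one {n : ℕ} (hn : 1 ≤ n) {r : ℝ} (hr : r ≤ 1) : far n r = 1 := by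
  unfold far c
  have e : fs (fun w => Saw w ∧ r ≤ Real.sqrt ((dx w : ℝ) ^ 2 + (dy w : ℝ) ^ 2)) n = fs Saw n := by
    ext w
    rw [mem_fs, mem_fs]
    constructor
    · rintro ⟨⟨h1, -⟩, h2⟩
      exact ⟨h1, h2⟩
    · rintro ⟨h1, h2⟩
      refine ⟨⟨h1, ?_⟩, h2⟩
      have h3 := one_le_nq h1 (by rintro rfl; simp at h2; omega)
      unfold nq at h3
      have h4 : (1 : ℝ) ≤ (dx w : ℝ) ^ 2 + (dy w : ℝ) ^ 2 := by exact_mod_cast h3
      refine hr.trans ?_
      apply Real.le_sqrt_of_sq_le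
      rw [one_pow]
      exact h4
  rw [e]
  have h := c_pos n
  unfold c at h
  exact div_self h.ne'

/-- the tail of the end point: lower bound -/
theorem far_lower : ∃ K : ℝ, 0 ≤ K ∧ ∀ n : ℕ, 2 ≤ n → ∀ r : ℝ,
    r * TH262.SawL.mass (1 / n) ≤ 1 / 4 → Real.exp (-(K * Real.log n ^ 4)) ≤ far n r := by
  obtain ⟨K, hK, hfar⟩ := le_far
  refine ⟨K + 15, by positivity, fun n hn r hr => ?_⟩
  have hn0 : (0 : ℝ) < n := by exact_mod_cast (by omega : 0 < n)
  have hm : 0 < TH262.SawL.mass (1 / (n : ℝ)) := TH262.SawL.mass_pos (by positivity)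
  have hmn := TH262.SawL.self_le_mass (e := 1 / (n : ℝ)) (by positivity)
  obtain ⟨m, hmm⟩ : ∃ m, m = TH262.SawL.mass (1 / (n : ℝ)) := ⟨_, rfl⟩
  rw [← hmm] at hr hm hmn
  have hlog := log_pos' hn
  have h4 : (3 : ℝ) ≤ 15 * Real.log n ^ 4 := by
    have h5 : Real.log 2 ≤ Real.log n := log_ge hn
    have h6 := Real.log_two_gt_d9
    have h7 : (0.69 : ℝ) ^ 4 ≤ Real.log n ^ 4 := pow_le_pow_left₀ (by norm_num) (by linarith) 4
    norm_num at h7
    linarith
  have hKL : 0 ≤ K * Real.log (n : ℝ) ^ 4 := by positivity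
  rcases le_or_gt (1 / 4) m with h3 | h3
  · have hr1 : r ≤ 1 := by
      by_contra hcon
      push Not at hcon
      nlinarith
    rw [far_one (by omega) hr1, Real.exp_le_one_iff]
    linarith
  · obtain ⟨r', hr'⟩ : ∃ r', r' = max r 0 := ⟨_, rfl⟩
    have hr0 : 0 ≤ r' := by rw [hr']; exact le_max_right _ _
    have hrr : r ≤ r' := by rw [hr']; exact le_max_left _ _
    have hr4 : r' * m ≤ 1 / 4 := by
      rw [hr']
      rcases le_total r 0 with h | h
      · rw [max_eq_right h]; linarith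
      · rw [max_eq_left h]; exact hr
    obtain ⟨k, hk1, hk2, hk3⟩ := adjust n (x := r' + 3) (by linarith)
    have hk0 : (1 : ℝ) ≤ k := by linarith
    have hk0' : 1 ≤ k := by exact_mod_cast hk0
    have hkm : (k : ℝ) * m < 1 := by
      have := mul_le_mul_of_nonneg_right hk1 hm.le
      linarith
    have hkn : k ≤ n := by
      have h5 : (k : ℝ) * (1 / n) < 1 := lt_of_le_of_lt
        (mul_le_mul_of_nonneg_left hmn (by linarith)) hkm
      rw [mul_one_div, div_lt_one hn0] at h5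
      exact_mod_cast h5.le
    refine le_trans ?_ (hfar n k hn hk0' hkn hk3 r (by linarith))
    apply Real.exp_le_exp.2
    have hR : n * R ((k : ℝ) / n) < 1 := by
      by_contra hcon
      push Not at hcon
      have hv0 : (0 : ℝ) < (k : ℝ) / n := by positivity
      have hv1 : (k : ℝ) / n ≤ 1 := by
        rw [div_le_one hn0]
        exact_mod_cast hkn
      have h5 : 1 / (n : ℝ) ≤ R ((k : ℝ) / n) := by
        rw [div_le_iff₀ hn0]
        linarith
      have h6 := psi_le_of_R hv0 hv1 (by positivity) h5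
      have h7 := TH262.SawL.le_mass (by positivity) h6
      rw [← hmm] at h7
      have h8 : 1 / (n : ℝ) / ((k : ℝ) / n) = 1 / k := by
        have : (0 : ℝ) < k := by linarith
        field_simp
      rw [h8, div_le_iff₀ (by linarith)] at h7
      linarith
    linarith

/-- the mean-square displacement -/
noncomputable def msd (n : ℕ) : ℝ := (∑ w ∈ fs Saw n, (nq w : ℝ)) / c n

theorem nq_le {w : List St} {n : ℕ} (hl : w.length = n) : (nq w : ℝ) ≤ (n : ℝ) ^ 2 := by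
  have h := abs_add_abs_le w
  rw [hl] at h
  have h1 : nq w ≤ (n : ℤ) ^ 2 := by
    unfold nq
    have h2 := abs_nonneg (dx w)
    have h3 := abs_nonneg (dy w)
    rw [← sq_abs (dx w), ← sq_abs (dy w)]
    nlinarith
  exact_mod_cast h1

theorem msd_le {n : ℕ} {r : ℝ} (hr : 0 ≤ r) : msd n ≤ r ^ 2 + (n : ℝ) ^ 2 * far n r := by
  classical
  have hc := c_pos n
  unfold msd far
  rw [div_le_iff₀ hc, add_mul, mul_assoc, div_mul_cancel₀ _ hc.ne']
  have h1 : ∀ w ∈ fs Saw n, (nq w : ℝ) ≤ r ^ 2 + (n : ℝ) ^ 2 *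
      (if r ≤ Real.sqrt ((dx w : ℝ) ^ 2 + (dy w : ℝ) ^ 2) then 1 else 0) := by
    intro w hw
    rw [mem_fs] at hw
    split_ifs with h
    · have := nq_le hw.2
      have := sq_nonneg r
      linarith
    · push Not at h
      rw [mul_zero, add_zero]
      rw [Real.sqrt_lt' (by
        rcases hr.eq_or_lt with h0 | h0
        · rw [← h0] at h
          exact absurd h (not_lt.2 (Real.sqrt_nonneg _))
        · exact h0)] at h
      unfold nq
      push_cast
      exact h.le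
  refine (Finset.sum_le_sum h1).trans ?_
  rw [Finset.sum_add_distrib, Finset.sum_const, nsmul_eq_mul, ← Finset.mul_sum, Finset.sum_boole]
  have e1 : ((fs Saw n).card : ℝ) = c n := rfl
  rw [e1, mul_comm ((c n : ℝ)) (r ^ 2)]
  apply add_le_add le_rfl
  apply mul_le_mul_of_nonneg_left _ (by positivity)
  exact_mod_cast Finset.card_le_card (fun w hw => by
    rw [Finset.mem_filter, mem_fs] at hw
    rw [mem_fs]
    exact ⟨⟨hw.1.1, hw.2⟩, hw.1.2⟩)

theorem msd_upper : ∃ K : ℝ, 0 ≤ K ∧ ∀ n : ℕ, 2 ≤ n →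
    msd n ≤ K * (1 / TH262.SawL.mass (1 / n)) ^ 2 * Real.log n ^ 8 := by
  obtain ⟨K, hK, hfar⟩ := far_upper
  obtain ⟨M, hM⟩ : ∃ M, M = TH262.SawL.mass 1 := ⟨_, rfl⟩
  refine ⟨16 * (K + 8) ^ 2 + 21 * M ^ 2, by positivity, fun n hn => ?_⟩
  have hn0 : (0 : ℝ) < n := by exact_mod_cast (by omega : 0 < n)
  have hn1 : (1 : ℝ) ≤ n := by exact_mod_cast (by omega : 1 ≤ n)
  have hm : 0 < TH262.SawL.mass (1 / (n : ℝ)) := TH262.SawL.mass_pos (by positivity)
  have hmM : TH262.SawL.mass (1 / (n : ℝ)) ≤ M := by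
    rw [hM]
    exact TH262.SawL.mass_mono (by positivity) (by rw [div_le_one hn0]; exact hn1)
  obtain ⟨m, hmm⟩ : ∃ m, m = TH262.SawL.mass (1 / (n : ℝ)) := ⟨_, rfl⟩
  rw [← hmm] at hm hmM ⊢
  have hlog := log_pos' hn
  obtain ⟨L, hL⟩ : ∃ L, L = Real.log (n : ℝ) ^ 4 := ⟨_, rfl⟩
  have hL0 : (0.226 : ℝ) ≤ L := by
    have h5 : Real.log 2 ≤ Real.log n := log_ge hn
    have h6 := Real.log_two_gt_d9
    have h7 : (0.69 : ℝ) ^ 4 ≤ Real.log n ^ 4 := pow_le_pow_left₀ (by norm_num) (by linarith) 4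
    norm_num at h7
    rw [hL]
    linarith
  obtain ⟨r, hr⟩ : ∃ r, r = 4 * (K + 8) * L / m := ⟨_, rfl⟩
  have hr0 : 0 ≤ r := by rw [hr]; positivity
  have h1 := msd_le (n := n) hr0
  have h2 := hfar n hn r hr0
  rw [← hmm] at h2
  have h3 : r * m / 4 = (K + 8) * L := by
    rw [hr]
    field_simp
  have h4 : (n : ℝ) ^ 2 * far n r ≤ 1 := by
    have h5 : far n r ≤ Real.exp (-(2 * Real.log n)) := by
      refine h2.trans (Real.exp_le_exp.2 ?_)
      have h6 := (pow_le_four hn).2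
      rw [h3, ← hL]
      rw [← hL] at h6
      linarith
    have h6 : Real.exp (-(2 * Real.log n)) = ((n : ℝ) ^ 2)⁻¹ := by
      rw [Real.exp_neg, mul_comm, Real.exp_mul, Real.exp_log hn0]
      norm_num
    rw [h6] at h5
    calc (n : ℝ) ^ 2 * far n r ≤ (n : ℝ) ^ 2 * ((n : ℝ) ^ 2)⁻¹ :=
          mul_le_mul_of_nonneg_left h5 (by positivity)
      _ = 1 := mul_inv_cancel₀ (by positivity)
  have h5 : 1 ≤ 21 * M ^ 2 * ((1 / m) ^ 2 * L ^ 2) := by
    have h6 : 1 ≤ M * (1 / m) := by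
      rw [mul_one_div, le_div_iff₀ hm]
      linarith
    have h7 : 1 ≤ (M * (1 / m)) ^ 2 := one_le_pow₀ h6
    have h8 : 1 ≤ 21 * L ^ 2 := by nlinarith
    have h9 : 21 * M ^ 2 * ((1 / m) ^ 2 * L ^ 2) = (M * (1 / m)) ^ 2 * (21 * L ^ 2) := by ring
    rw [h9]
    exact one_le_mul_of_one_le_of_one_le h7 h8
  have e8 : Real.log (n : ℝ) ^ 8 = L ^ 2 := by rw [hL]; ring
  rw [e8]
  have e1 : r ^ 2 = 16 * (K + 8) ^ 2 * ((1 / m) ^ 2 * L ^ 2) := by
    rw [hr]
    ring
  rw [e1] at h1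
  linarith

end Pool.Agent.TH546.XI
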